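import Pool.Agent.H.MP_178ab7_mp.C

set_option autoImplicit false
set_option maxHeartbeats 400000

namespace Pool.Agent.Results.MP_178ab7_mp.Yes

open MeasureTheory Set Filter Topology Pool.Agent.H.MP_178ab7_mp
open scoped ENNReal NNReal

/-- For every regular injective C2 arc there is a positive coupling up to which the quadratic form
of the delta-prime interaction on the arc is non-negative on H1 of the slit plane. -/
theorem result : ∀ γ : ℝ → ℂ, ContDiff ℝ 2 γ → InjOn γ (Icc 0 1) →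
    (∀ s ∈ Icc (0 : ℝ) 1, deriv γ s ≠ 0) → ∃ w : ℝ, 0 < w ∧
    ∀ u g k : ℂ → ℂ, H1 (γ '' Icc 0 1)ᶜ u g k →
      (∃ P M : ℝ → ℂ, IsTrace γ 1 u P ∧ IsTrace γ (-1) u M) ∧
      ∀ P M : ℝ → ℂ, IsTrace γ 1 u P → IsTrace γ (-1) u M → ∀ ω ≤ w,
        0 ≤ (∫ x in (γ '' Icc 0 1)ᶜ, (‖g x‖ ^ 2 + ‖k x‖ ^ 2)) -
          ω * ∫ s in Icc (0 : ℝ) 1, ‖P s - M s‖ ^ 2 * ‖deriv γ s‖ := by
  intro γ hγ hi hd
  obtain ⟨η, η0, K, hK⟩ := est hγ hi hd
  have c := (nor_cd hγ).continuous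
  have cd := hγ.continuous_deriv (by norm_num)
  obtain ⟨L, hL⟩ := (isCompact_Icc (a := (0 : ℝ)) (b := 1)).exists_bound_of_continuousOn
    cd.continuousOn
  have L0 : 0 ≤ L := (norm_nonneg _).trans (hL 0 (by simp))
  refine ⟨1 / (L * ((6 * η + 4) * K) + 1), by positivity, fun u g k H => ?_⟩
  obtain ⟨S, s1, s2, s3, s4⟩ := hK u g k H
  obtain ⟨mu, mg, mk, -, lg, lk, -⟩ := H
  set O := (γ '' Icc 0 1)ᶜ
  have i1 : Integrable (fun x => ‖g x‖ ^ 2 + ‖k x‖ ^ 2) (volume.restrict O) :=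
    (lg.integrable_norm_pow two_ne_zero).add (lk.integrable_norm_pow two_ne_zero)
  set E := ∫ x in O, (‖g x‖ ^ 2 + ‖k x‖ ^ 2) with hE
  have E0 : 0 ≤ E := integral_nonneg fun x => by positivity
  have e1 : ∫⁻ x in O, (‖g x‖ₑ ^ 2 + ‖k x‖ₑ ^ 2) = ENNReal.ofReal E := by
    rw [hE, ofReal_integral_eq_lintegral_ofReal i1 (.of_forall fun x => by positivity)]
    congr 1
    ext x
    rw [ENNReal.ofReal_add (by positivity) (by positivity), ENNReal.ofReal_pow (norm_nonneg _),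
      ENNReal.ofReal_pow (norm_nonneg _), ofReal_norm, ofReal_norm]
  rw [e1] at s2 s3
  have mF : ∀ e : ℝ, Measurable fun p : ℝ × ℝ => u (nor γ (p.1, e * p.2)) := fun e =>
    mu.comp (Continuous.measurable (by fun_prop))
  have tr := fun e he => trace (mF e) η0 s1
    (ENNReal.mul_ne_top ENNReal.coe_ne_top ENNReal.ofReal_ne_top) (s2 e he) (s4 e he)
  obtain ⟨P, p1, p2, p3⟩ := tr 1 (.inl rfl)
  obtain ⟨M, m1, m2, m3⟩ := tr (-1) (.inr rfl)
  refine ⟨⟨P, M, ⟨p1, p3⟩, m1, m3⟩, fun P' M' hP hM ω hω => ?_⟩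
  obtain ⟨t, t1, t2⟩ := Measure.exists_mem_of_measure_ne_zero_of_ae
    (μ := volume) (s := Ioc 0 (η / 2)) (by simpa using η0) (ae_restrict_of_ae s1)
  have t3 : t ≤ η := by linarith [t1.2]
  have ms : ∀ e : ℝ, Ms fun s => u (nor γ (s, e * t)) := fun e =>
    (mu.comp (Continuous.measurable (by fun_prop))).aemeasurable
  have a1 := p2 t t2 t1.1 t3
  rw [N_symm] at a1
  have a2 := (N_tri M p1.aemeasurable (ms 1)).trans (add_le_add (mul_le_mul_right a1 2)
    (mul_le_mul_right ((N_tri M (ms 1) (ms (-1))).trans (add_le_add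
      (mul_le_mul_right (s3 t t2 t1.1 t1.2) 2) (mul_le_mul_right (m2 t t2 t1.1 t3) 2))) 2))
  have a3 : N P M ≤ ENNReal.ofReal ((6 * η + 4) * K * E) := by
    refine a2.trans ?_
    have := ENNReal.ofReal_le_ofReal t3
    rw [ENNReal.ofReal_mul (by positivity), ENNReal.ofReal_mul (by positivity),
      ENNReal.ofReal_add (by positivity) (by positivity), ENNReal.ofReal_mul (by positivity)]
    simp only [ENNReal.ofReal_ofNat, ENNReal.ofReal_coe_nnreal]
    calc _ = (6 * ENNReal.ofReal t + 4) * K * ENNReal.ofReal E := by ring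
      _ ≤ _ := by gcongr
  have i2 : Integrable (fun s => ‖P s - M s‖ ^ 2) (volume.restrict (Icc (0 : ℝ) 1)) :=
    (p1.sub m1).integrable_norm_pow two_ne_zero
  have a4 : ∫ s in Icc (0 : ℝ) 1, ‖P s - M s‖ ^ 2 ≤ (6 * η + 4) * K * E := by
    rw [← ENNReal.ofReal_le_ofReal_iff (by positivity),
      ofReal_integral_eq_lintegral_ofReal i2 (.of_forall fun x => by positivity)]
    refine le_trans (le_of_eq ?_) a3
    simp only [ENNReal.ofReal_pow (norm_nonneg _), ofReal_norm, N]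
  have a5 : ∫ s in Icc (0 : ℝ) 1, ‖P' s - M' s‖ ^ 2 * ‖deriv γ s‖ ≤
      L * ∫ s in Icc (0 : ℝ) 1, ‖P s - M s‖ ^ 2 := by
    rw [← integral_const_mul]
    refine integral_mono_of_nonneg (.of_forall fun s => by positivity) (i2.const_mul L) ?_
    filter_upwards [uniq hγ mu hP ⟨p1, p3⟩, uniq hγ mu hM ⟨m1, m3⟩,
      ae_restrict_mem measurableSet_Icc] with s b1 b2 b3
    rw [b1, b2, mul_comm]
    exact mul_le_mul_of_nonneg_right (hL s b3) (by positivity)
  have J0 : 0 ≤ ∫ s in Icc (0 : ℝ) 1, ‖P' s - M' s‖ ^ 2 * ‖deriv γ s‖ :=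
    integral_nonneg fun s => by positivity
  refine sub_nonneg.2 ((mul_le_mul_of_nonneg_right hω J0).trans ?_)
  rw [div_mul_eq_mul_div, one_mul, div_le_iff₀ (by positivity)]
  nlinarith [mul_le_mul_of_nonneg_left a4 L0]

end Pool.Agent.Results.MP_178ab7_mp.Yes
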